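import Mathlib
import Pool.Agent.V11110.QL3
import Pool.Agent.V11110.QL4

/-!
# A non-rank-one element with infinite cyclic stable centraliser

The Riemannian product of two hyperbolic planes is a Hadamard manifold. A torsion-free congruence
subgroup of the norm-one units of a quaternion order over `ℤ[√7]`, split at both real places, acts
on it freely, properly discontinuously and cocompactly, and contains an element which is hyperbolic
in the first factor and elliptic in the second one. Its axis bounds a flat half-plane, but its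
stable centraliser is infinite cyclic.
-/

namespace Pool.Agent.Results.MP_adbdc7_gt.RankOne

open Pool.Agent.V11110.QL Filter Topology

/-- The Riemannian product of two hyperbolic planes (curvature `-1`), with its distance
`d² = d₁² + d₂²`. -/
abbrev HH : Type := WithLp 2 (UpperHalfPlane × UpperHalfPlane)

/-- The action of a pair of real unimodular matrices by Moebius transformations on each factor. -/
noncomputable def act (γ : SL2 × SL2) (x : HH) : HH := WithLp.toLp 2 (γ.1 • x.fst, γ.2 • x.snd)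

/-- `Γ` acts on `HH` by isometries, freely, properly discontinuously and cocompactly; then `Γ \ HH`
is a compact Riemannian manifold of nonpositive curvature with universal cover `HH` and
fundamental group `Γ`. -/
structure IsDeckGroup (Γ : Subgroup (SL2 × SL2)) : Prop where
  isometric : ∀ γ ∈ Γ, Isometry (act γ)
  free : ∀ γ ∈ Γ, ∀ x, act γ x = x → γ = 1
  discontinuous : ∀ K : Set HH, IsCompact K → {γ | γ ∈ Γ ∧ (act γ '' K ∩ K).Nonempty}.Finite
  cocompact : ∃ K : Set HH, IsCompact K ∧ ∀ x, ∃ γ ∈ Γ, act γ x ∈ K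

/-- `L` is an axis of `γ`. -/
def IsAxis (γ : SL2 × SL2) (L : ℝ → HH) : Prop :=
  (∀ s t, dist (L s) (L t) = |s - t|) ∧ ∃ τ : ℝ, τ ≠ 0 ∧ ∀ t, act γ (L t) = L (t + τ)

/-- The geodesic `L` bounds a flat half-plane. -/
def BoundsFlatHalfPlane (L : ℝ → HH) : Prop :=
  ∃ F : ℝ → ℝ → HH, (∀ s, F s 0 = L s) ∧ ∀ s s' y y', 0 ≤ y → 0 ≤ y' →
    dist (F s y) (F s' y') = Real.sqrt ((s - s') ^ 2 + (y - y') ^ 2)

/-- `γ` is a rank-one isometry: no axis bounds a flat half-plane. -/
def IsRankOne (γ : SL2 × SL2) : Prop := ∀ L, IsAxis γ L → ¬ BoundsFlatHalfPlane L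

/-- The stable centraliser of `g` in `Γ`. -/
def stableCentralizer (Γ : Subgroup (SL2 × SL2)) (g : SL2 × SL2) : Set (SL2 × SL2) :=
  {h | h ∈ Γ ∧ ∃ n : ℕ, 1 ≤ n ∧ h * g ^ n = g ^ n * h}

/-- A set of group elements is an infinite cyclic subgroup. -/
def IsInfiniteCyclic (S : Set (SL2 × SL2)) : Prop :=
  ∃ h0, S = {h | ∃ k : ℤ, h = h0 ^ k} ∧ ∀ k : ℤ, h0 ^ k = 1 → k = 0

/-! ### the group -/

theorem cj_cong (β : Ord) : cj (1 + 3 * β) = 1 + 3 * cj β := by
  rw [three_eq_sc, sc_mul, sc_mul]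
  ext1 <;> simp [cj]

theorem cj_anti (q r : Ord) : cj (q * r) = cj r * cj q := by
  ext1 <;> simp [cj] <;> ring

/-- the congruence subgroup of level 3 of the norm-one units -/
noncomputable def Gam : Subgroup (SL2 × SL2) where
  carrier := {γ | ∃ q : Ord, nrd q = 1 ∧ (∃ β, q = 1 + 3 * β) ∧
    (γ.1 : Matrix (Fin 2) (Fin 2) ℝ) = rho false q ∧ (γ.2 : Matrix (Fin 2) (Fin 2) ℝ) = rho true q}
  mul_mem' := by
    rintro γ δ ⟨q, h1, ⟨β, hβ⟩, h2, h3⟩ ⟨r, k1, ⟨β', hβ'⟩, k2, k3⟩
    refine ⟨q * r, by rw [nrd_mul, h1, k1, one_mul], ⟨β + β' + β * (3 * β'), ?_⟩, ?_, ?_⟩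
    · rw [hβ, hβ']; noncomm_ring
    · rw [Prod.fst_mul, Matrix.SpecialLinearGroup.coe_mul, h2, k2, rho_mul]
    · rw [Prod.snd_mul, Matrix.SpecialLinearGroup.coe_mul, h3, k3, rho_mul]
  one_mem' := ⟨1, nrd_one, ⟨0, by simp⟩, by rw [rho_one]; rfl, by rw [rho_one]; rfl⟩
  inv_mem' := by
    rintro γ ⟨q, h1, ⟨β, hβ⟩, h2, h3⟩
    refine ⟨cj q, by rw [nrd_cj, h1], ⟨cj β, by rw [hβ, cj_cong]⟩, ?_, ?_⟩
    · rw [Prod.fst_inv, Matrix.SpecialLinearGroup.coe_inv, h2, rho_cj]
    · rw [Prod.snd_inv, Matrix.SpecialLinearGroup.coe_inv, h3, rho_cj]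

theorem mem_Gam (γ : SL2 × SL2) : γ ∈ Gam ↔ ∃ q : Ord, nrd q = 1 ∧ (∃ β, q = 1 + 3 * β) ∧
    (γ.1 : Matrix (Fin 2) (Fin 2) ℝ) = rho false q ∧
    (γ.2 : Matrix (Fin 2) (Fin 2) ℝ) = rho true q := Iff.rfl

theorem dist_act (x y : HH) : dist x y = Real.sqrt (dist x.fst y.fst ^ 2 + dist x.snd y.snd ^ 2) := by
  rw [WithLp.prod_dist_eq_add (by norm_num), Real.sqrt_eq_rpow]
  norm_num

theorem act_isometry (γ : SL2 × SL2) : Isometry (act γ) := by
  apply Isometry.of_dist_eq
  intro x y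
  rw [dist_act, dist_act]
  show Real.sqrt (dist (γ.1 • x.fst) (γ.1 • y.fst) ^ 2 + dist (γ.2 • x.snd) (γ.2 • y.snd) ^ 2) = _
  rw [dist_smul, dist_smul]

/-- basepoint -/
noncomputable def o : HH := WithLp.toLp 2 (UpperHalfPlane.I, UpperHalfPlane.I)

theorem dist_fst_le (x y : HH) : dist x.fst y.fst ≤ dist x y := by
  rw [dist_act]
  apply Real.le_sqrt_of_sq_le
  nlinarith [sq_nonneg (dist x.snd y.snd)]

theorem dist_snd_le (x y : HH) : dist x.snd y.snd ≤ dist x y := by
  rw [dist_act]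
  apply Real.le_sqrt_of_sq_le
  nlinarith [sq_nonneg (dist x.fst y.fst)]

theorem finite_displacement (R : ℝ) : {γ | γ ∈ Gam ∧
    dist UpperHalfPlane.I (γ.1 • UpperHalfPlane.I) ≤ R ∧
    dist UpperHalfPlane.I (γ.2 • UpperHalfPlane.I) ≤ R}.Finite := by
  have hfin := (finite_ord (Real.sqrt (2 * Real.cosh R))).image
    (fun q => (rho false q, rho true q))
  have hinj : Function.Injective (fun γ : SL2 × SL2 =>
      ((γ.1 : Matrix (Fin 2) (Fin 2) ℝ), (γ.2 : Matrix (Fin 2) (Fin 2) ℝ))) := by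
    intro γ δ h
    have h1 := congrArg Prod.fst h
    have h2 := congrArg Prod.snd h
    exact Prod.ext (Subtype.ext h1) (Subtype.ext h2)
  refine (hfin.preimage hinj.injOn).subset ?_
  rintro γ ⟨⟨q, -, -, h2, h3⟩, hd1, hd2⟩
  refine ⟨q, ?_, ?_⟩
  · intro p i j
    cases p
    · rw [← h2]; exact entries_of_dist γ.1 R hd1 i j
    · rw [← h3]; exact entries_of_dist γ.2 R hd2 i j
  · show (rho false q, rho true q) = _
    rw [← h2, ← h3]

theorem trace_rho (p : Bool) (q : Ord) : rho p q 0 0 + rho p q 1 1 = 2 * sg p q.re := by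
  simp [rho]; ring

theorem gam_free (γ : SL2 × SL2) (hγ : γ ∈ Gam) (x : HH) (hx : act γ x = x) : γ = 1 := by
  obtain ⟨q, h1, ⟨β, hβ⟩, h2, h3⟩ := hγ
  have hf1 : γ.1 • x.fst = x.fst := congrArg WithLp.fst hx
  have hf2 : γ.2 • x.snd = x.snd := congrArg WithLp.snd hx
  have t1 := fixed_trace _ _ hf1
  have t2 := fixed_trace _ _ hf2
  have e1 : γ.1 0 0 + γ.1 1 1 = 2 * sg false q.re := by rw [← trace_rho, ← h2]
  have e2 : γ.2 0 0 + γ.2 1 1 = 2 * sg true q.re := by rw [← trace_rho, ← h3]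
  rw [e1] at t1
  rw [e2] at t2
  have hrel : 2 - 2 * q.re = 9 * nrd β := by
    rw [hβ, three_eq_sc, sc_mul] at h1
    rw [hβ, three_eq_sc, sc_mul]
    simp [nrd] at h1 ⊢
    linear_combination -h1
  have hp : ∀ p, 2 - 2 * sg p q.re = 9 * sg p (nrd β) := by
    intro p
    have := congrArg (sg p) hrel
    simpa [map_ofNat] using this
  have p1 := hp false
  have p2 := hp true
  rw [abs_le] at t1 t2
  have hβ0 : nrd β = 0 := by
    apply eq_zero_of_small <;> linarith [t1.1, t1.2, t2.1, t2.2]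
  have hβ1 := nrd_eq_zero hβ0
  rw [hβ1, mul_zero, add_zero] at hβ
  rw [hβ, rho_one] at h2 h3
  exact Prod.ext (Subtype.ext h2) (Subtype.ext h3)

theorem gam_discontinuous (K : Set HH) (hK : IsCompact K) :
    {γ | γ ∈ Gam ∧ (act γ '' K ∩ K).Nonempty}.Finite := by
  obtain ⟨R, hR⟩ := hK.isBounded.subset_closedBall o
  refine (finite_displacement (2 * R)).subset ?_
  rintro γ ⟨hγ, y, ⟨x, hx, hxy⟩, hy⟩
  have h1 : dist x o ≤ R := hR hx
  have h2 : dist y o ≤ R := hR hy
  have h3 : dist o (act γ o) ≤ 2 * R := by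
    calc dist o (act γ o) ≤ dist o y + dist y (act γ o) := dist_triangle _ _ _
      _ = dist y o + dist x o := by
          rw [dist_comm o y, ← hxy, (act_isometry γ).dist_eq]
      _ ≤ 2 * R := by linarith
  exact ⟨hγ, (dist_fst_le o (act γ o)).trans h3, (dist_snd_le o (act γ o)).trans h3⟩

theorem gam_cocompact : ∃ K : Set HH, IsCompact K ∧ ∀ x, ∃ γ ∈ Gam, act γ x ∈ K := by
  obtain ⟨A, hA⟩ := cocompact_matrices
  refine ⟨(WithLp.toLp 2) '' ((Metric.closedBall UpperHalfPlane.I (4 * A ^ 2)) ×ˢ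
    (Metric.closedBall UpperHalfPlane.I (4 * A ^ 2))), ?_, ?_⟩
  · apply IsCompact.image
    · exact (isCompact_closedBall _ _).prod (isCompact_closedBall _ _)
    · exact WithLp.prod_continuous_toLp 2 _ _
  · intro x
    obtain ⟨g1, hg1⟩ := exists_smul_I x.fst
    obtain ⟨g2, hg2⟩ := exists_smul_I x.snd
    obtain ⟨u, hu1, hu2, hu3⟩ := hA (fun p => if p then ((g2⁻¹ : SL2) : Matrix (Fin 2) (Fin 2) ℝ)
      else ((g1⁻¹ : SL2) : Matrix (Fin 2) (Fin 2) ℝ)) (by
        intro p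
        cases p
        · exact (g1⁻¹ : SL2).det_coe
        · exact (g2⁻¹ : SL2).det_coe)
    let γ1 : SL2 := ⟨rho false u, by rw [rho_det, hu1, map_one]⟩
    let γ2 : SL2 := ⟨rho true u, by rw [rho_det, hu1, map_one]⟩
    have hγ : ((γ1, γ2) : SL2 × SL2) ∈ Gam := ⟨u, hu1, hu2, rfl, rfl⟩
    refine ⟨(γ1, γ2)⁻¹, Gam.inv_mem hγ, (γ1⁻¹ • x.fst, γ2⁻¹ • x.snd), ⟨?_, ?_⟩, rfl⟩
    · have h1 := dist_of_entries (g1⁻¹ * γ1) A (by
        intro i j
        have := hu3 false i j
        rw [Matrix.SpecialLinearGroup.coe_mul]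
        exact this)
      rw [Metric.mem_closedBall]
      show dist (γ1⁻¹ • x.fst) UpperHalfPlane.I ≤ _
      rw [← hg1, ← dist_smul (g1⁻¹ * γ1) (γ1⁻¹ • g1 • UpperHalfPlane.I), ← mul_smul, ← mul_smul,
        show g1⁻¹ * γ1 * γ1⁻¹ * g1 = 1 by group, one_smul]
      exact h1
    · have h1 := dist_of_entries (g2⁻¹ * γ2) A (by
        intro i j
        have := hu3 true i j
        rw [Matrix.SpecialLinearGroup.coe_mul]
        exact this)
      rw [Metric.mem_closedBall]
      show dist (γ2⁻¹ • x.snd) UpperHalfPlane.I ≤ _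
      rw [← hg2, ← dist_smul (g2⁻¹ * γ2) (γ2⁻¹ • g2 • UpperHalfPlane.I), ← mul_smul, ← mul_smul,
        show g2⁻¹ * γ2 * γ2⁻¹ * g2 = 1 by group, one_smul]
      exact h1

theorem gam_deck : IsDeckGroup Gam where
  isometric γ _ := act_isometry γ
  free := gam_free
  discontinuous := gam_discontinuous
  cocompact := gam_cocompact

/-! ### the element -/

/-- the quaternion -/
def qg : Ord := ⟨⟨262, 99⟩, ⟨12, 12⟩, ⟨105, 36⟩, ⟨117, 42⟩⟩

theorem nrd_qg : nrd qg = 1 := by decide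

theorem qg_cong : ∃ β, qg = 1 + 3 * β := by
  refine ⟨⟨⟨87, 33⟩, ⟨4, 4⟩, ⟨35, 12⟩, ⟨39, 14⟩⟩, ?_⟩
  rw [three_eq_sc, sc_mul]
  ext1
  · show (⟨262, 99⟩ : R7) = 1 + 3 * ⟨87, 33⟩
    decide
  · show (⟨12, 12⟩ : R7) = 0 + 3 * ⟨4, 4⟩
    decide
  · show (⟨105, 36⟩ : R7) = 0 + 3 * ⟨35, 12⟩
    decide
  · show (⟨117, 42⟩ : R7) = 0 + 3 * ⟨39, 14⟩
    decide

noncomputable def g1 : SL2 := ⟨rho false qg, by rw [rho_det, nrd_qg, map_one]⟩
noncomputable def g2 : SL2 := ⟨rho true qg, by rw [rho_det, nrd_qg, map_one]⟩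

/-- the element -/
noncomputable def gg : SL2 × SL2 := (g1, g2)

theorem gg_mem : gg ∈ Gam := ⟨qg, nrd_qg, qg_cong, rfl, rfl⟩

theorem sqrt7_bounds : (2.64 : ℝ) < Real.sqrt 7 ∧ Real.sqrt 7 < 2.65 := by
  constructor
  · apply Real.lt_sqrt_of_sq_lt; norm_num
  · rw [Real.sqrt_lt' (by norm_num)]; norm_num

theorem sqrt3_bounds : (0 : ℝ) < Real.sqrt 3 ∧ Real.sqrt 3 < 1.8 := by
  constructor
  · positivity
  · rw [Real.sqrt_lt' (by norm_num)]; norm_num

theorem g1_trace : 2 < g1 0 0 + g1 1 1 := by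
  have h : g1 0 0 + g1 1 1 = 2 * sg false qg.re := trace_rho false qg
  have e : sg false qg.re = 262 + 99 * Real.sqrt 7 := by
    rw [sg_apply]; simp [qg, eps]
  rw [h, e]
  have := sqrt7_bounds.1
  linarith

theorem g1_c : g1 1 0 ≠ 0 := by
  have h : g1 1 0 = sg false qg.imI + Real.sqrt 3 * sg false qg.imK := rfl
  have e1 : sg false qg.imI = 12 + 12 * Real.sqrt 7 := by rw [sg_apply]; simp [qg, eps]
  have e2 : sg false qg.imK = 117 + 42 * Real.sqrt 7 := by rw [sg_apply]; simp [qg, eps]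
  rw [h, e1, e2]
  positivity

theorem g2_trace : (g2 0 0 + g2 1 1) ^ 2 < 4 := by
  have h : g2 0 0 + g2 1 1 = 2 * sg true qg.re := trace_rho true qg
  have e : sg true qg.re = 262 - 99 * Real.sqrt 7 := by
    rw [sg_apply]; simp [qg, eps]; ring
  rw [h, e]
  obtain ⟨h1, h2⟩ := sqrt7_bounds
  have a : -1 < 262 - 99 * Real.sqrt 7 := by linarith
  have b : 262 - 99 * Real.sqrt 7 < 1 := by linarith
  nlinarith

theorem g2_c : g2 1 0 ≠ 0 := by
  have h : g2 1 0 = sg true qg.imI + Real.sqrt 3 * sg true qg.imK := rfl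
  have e1 : sg true qg.imI = 12 - 12 * Real.sqrt 7 := by rw [sg_apply]; simp [qg, eps]; ring
  have e2 : sg true qg.imK = 117 - 42 * Real.sqrt 7 := by rw [sg_apply]; simp [qg, eps]; ring
  rw [h, e1, e2]
  obtain ⟨h1, h2⟩ := sqrt7_bounds
  obtain ⟨h3, h4⟩ := sqrt3_bounds
  have a : 0 < 117 - 42 * Real.sqrt 7 := by linarith
  have b : 117 - 42 * Real.sqrt 7 < 6.2 := by linarith
  have c : Real.sqrt 3 * (117 - 42 * Real.sqrt 7) < 1.8 * 6.2 := by
    apply mul_lt_mul'' h4 b h3.le a.le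
  have d : 12 - 12 * Real.sqrt 7 + Real.sqrt 3 * (117 - 42 * Real.sqrt 7) < 0 := by
    norm_num at c ⊢
    linarith
  exact d.ne

theorem rho_injective (p : Bool) : Function.Injective (rho p) := by
  intro q r h
  have h3 : Real.sqrt 3 ≠ 0 := by positivity
  have h00 := congrFun (congrFun h 0) 0
  have h01 := congrFun (congrFun h 0) 1
  have h10 := congrFun (congrFun h 1) 0
  have h11 := congrFun (congrFun h 1) 1
  simp [rho] at h00 h01 h10 h11
  ext1
  · apply sg_injective p; linarith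
  · apply sg_injective p; linarith
  · apply sg_injective p
    apply mul_left_cancel₀ h3; linarith
  · apply sg_injective p
    apply mul_left_cancel₀ h3; linarith

theorem gg_commute (P : SL2) (l : ℝ) (hl : l ≠ 0) (hP : g1 * P = P * dg l hl) (h : SL2 × SL2)
    (hh : h ∈ Gam) (μ : ℝ) (hμ : μ ≠ 0) (hd : h.1 * P = P * dg μ hμ) : h * gg = gg * h := by
  obtain ⟨q, -, -, h2, h3⟩ := hh
  have e1 : h.1 * g1 = g1 * h.1 := by
    have a1 : h.1 = P * dg μ hμ * P⁻¹ := by rw [← hd, mul_inv_cancel_right]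
    have a2 : g1 = P * dg l hl * P⁻¹ := by rw [← hP, mul_inv_cancel_right]
    have a3 : dg μ hμ * dg l hl = dg l hl * dg μ hμ := by
      rw [dg_mul, dg_mul]
      simp only [mul_comm]
    calc h.1 * g1 = P * (dg μ hμ * dg l hl) * P⁻¹ := by rw [a1, a2]; group
      _ = P * (dg l hl * dg μ hμ) * P⁻¹ := by rw [a3]
      _ = g1 * h.1 := by rw [a1, a2]; group
  have e2 : q * qg = qg * q := by
    apply rho_injective false
    rw [rho_mul, rho_mul]
    have := congrArg (fun M : SL2 => (M : Matrix (Fin 2) (Fin 2) ℝ)) e1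
    simp only [Matrix.SpecialLinearGroup.coe_mul] at this
    rw [h2] at this
    exact this
  have e3 : h.2 * g2 = g2 * h.2 := by
    apply Subtype.ext
    rw [Matrix.SpecialLinearGroup.coe_mul, Matrix.SpecialLinearGroup.coe_mul, h3]
    show rho true q * rho true qg = rho true qg * rho true q
    rw [← rho_mul, ← rho_mul, e2]
  exact Prod.ext e1 e3

/-- the counterexample -/
theorem gg_properties : gg ≠ 1 ∧ (∃ L, IsAxis gg L ∧ BoundsFlatHalfPlane L) ∧
    IsInfiniteCyclic (stableCentralizer Gam gg) := by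
  obtain ⟨P, l, hl, hP⟩ := exists_diag_hyp g1 g1_c g1_trace
  obtain ⟨z0, hz0⟩ := exists_fixed g2 g2_c g2_trace
  have hl0 : l ≠ 0 := by positivity
  have hlog : 0 < Real.log |l| := Real.log_pos (by rw [abs_of_pos (by linarith)]; exact hl)
  have hact : ∀ (M : SL2) (μ : ℝ) (hμ : μ ≠ 0) (t : ℝ), M * P = P * dg μ hμ →
      M • (P • ver 0 t) = P • ver 0 (t + 2 * Real.log |μ|) := by
    intro M μ hμ t hM
    rw [← mul_smul, hM, mul_smul, dg_smul_ver]
  -- φ and its properties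
  let φ : SL2 × SL2 → ℝ := fun h => Real.log |(P⁻¹ * h.1 * P) 0 0|
  have hφ : ∀ (h : SL2 × SL2) (μ : ℝ) (hμ : μ ≠ 0), h.1 * P = P * dg μ hμ →
      φ h = Real.log |μ| := by
    intro h μ hμ hd
    show Real.log |(P⁻¹ * h.1 * P) 0 0| = _
    rw [mul_assoc, hd, inv_mul_cancel_left]
    rfl
  -- the stable centraliser as a subgroup
  let SS : Subgroup (SL2 × SL2) := Gam ⊓ Subgroup.centralizer {gg}
  have hmemSS : ∀ h, h ∈ SS ↔ h ∈ Gam ∧ h * gg = gg * h := by
    intro h
    rw [Subgroup.mem_inf, Subgroup.mem_centralizer_singleton_iff]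
  have hdiag : ∀ h ∈ SS, ∃ (μ : ℝ) (hμ : μ ≠ 0), h.1 * P = P * dg μ hμ := by
    intro h hh
    have h1 := ((hmemSS h).1 hh).2
    apply comm_diag g1 P l hl hP h.1 1 le_rfl
    rw [pow_one]
    exact congrArg Prod.fst h1
  have hSS : stableCentralizer Gam gg = (SS : Set (SL2 × SL2)) := by
    ext h
    constructor
    · rintro ⟨hG, n, hn, hc⟩
      have h1 : h.1 * g1 ^ n = g1 ^ n * h.1 := congrArg Prod.fst hc
      obtain ⟨μ, hμ, hd⟩ := comm_diag g1 P l hl hP h.1 n hn h1
      exact (hmemSS h).2 ⟨hG, gg_commute P l hl0 hP h hG μ hμ hd⟩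
    · intro hh
      obtain ⟨h1, h2⟩ := (hmemSS h).1 hh
      exact ⟨h1, 1, le_rfl, by rw [pow_one]; exact h2⟩
  have hggSS : gg ∈ SS := (hmemSS gg).2 ⟨gg_mem, rfl⟩
  have hφgg : φ gg = Real.log |l| := hφ gg l hl0 hP
  have hφmul : ∀ a ∈ SS, ∀ b ∈ SS, φ (a * b) = φ a + φ b := by
    intro a ha b hb
    obtain ⟨μ, hμ, hda⟩ := hdiag a ha
    obtain ⟨ν, hν, hdb⟩ := hdiag b hb
    have hd : (a * b).1 * P = P * dg (μ * ν) (mul_ne_zero hμ hν) := by
      rw [Prod.fst_mul, mul_assoc, hdb, ← mul_assoc, hda, mul_assoc, dg_mul]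
    rw [hφ _ _ _ hd, hφ _ _ _ hda, hφ _ _ _ hdb, abs_mul,
      Real.log_mul (abs_pos.2 hμ).ne' (abs_pos.2 hν).ne']
  have hφone : φ 1 = 0 := by
    have h1 := hφmul 1 SS.one_mem 1 SS.one_mem
    rw [one_mul] at h1
    linarith
  -- injectivity
  have hinj : ∀ h ∈ SS, φ h = 0 → h = 1 := by
    intro h hh h0
    obtain ⟨μ, hμ, hd⟩ := hdiag h hh
    rw [hφ h μ hμ hd] at h0
    have habs : |μ| = 1 := by
      have hpos := abs_pos.2 hμ
      rw [← Real.exp_log hpos, h0, Real.exp_zero]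
    obtain ⟨q, -, ⟨β, hβ⟩, h2, h3⟩ := ((hmemSS h).1 hh).1
    have hh1 : h.1 = P * dg μ hμ * P⁻¹ := by rw [← hd, mul_inv_cancel_right]
    rcases abs_eq (zero_le_one' ℝ) |>.1 habs with h1 | h1
    · have hdg : dg μ hμ = 1 := by
        apply sl2_ext
        · show μ = 1
          exact h1
        · rfl
        · rfl
        · show μ⁻¹ = 1
          rw [h1, inv_one]
      rw [hdg, mul_one, mul_inv_cancel] at hh1
      have hq : q = 1 := by
        apply rho_injective false
        rw [← h2, hh1, rho_one]; rfl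
      rw [hq, rho_one] at h3
      exact Prod.ext hh1 (Subtype.ext h3)
    · exfalso
      have hneg : (h.1 : Matrix (Fin 2) (Fin 2) ℝ) = -1 := by
        have e1 : (dg μ hμ : Matrix (Fin 2) (Fin 2) ℝ) = -1 := by
          ext i j
          fin_cases i <;> fin_cases j
          · show μ = -1
            exact h1
          · show (0:ℝ) = (-1 : Matrix (Fin 2) (Fin 2) ℝ) 0 1
            simp
          · show (0:ℝ) = (-1 : Matrix (Fin 2) (Fin 2) ℝ) 1 0
            simp
          · show μ⁻¹ = (-1 : Matrix (Fin 2) (Fin 2) ℝ) 1 1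
            rw [h1]; simp
        have e2 : (P : Matrix (Fin 2) (Fin 2) ℝ) * ((P⁻¹ : SL2) : Matrix (Fin 2) (Fin 2) ℝ) = 1 := by
          rw [← Matrix.SpecialLinearGroup.coe_mul, mul_inv_cancel]; rfl
        rw [hh1, Matrix.SpecialLinearGroup.coe_mul, Matrix.SpecialLinearGroup.coe_mul, e1,
          mul_neg, mul_one, neg_mul, e2]
      rw [h2] at hneg
      have t1 := trace_rho false q
      rw [hneg] at t1
      have t2 : sg false q.re = sg false (-1) := by
        rw [map_neg, map_one]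
        simp at t1
        linarith
      have t3 := sg_injective false t2
      have t4 : q.re = 1 + 3 * β.re := by
        rw [hβ, three_eq_sc, sc_mul]; simp
      rw [t3] at t4
      have t5 := congrArg Zsqrtd.re t4
      simp at t5
      omega
  -- discreteness
  have hdisc : ∀ A : ℝ, {h | h ∈ SS ∧ |φ h| ≤ A}.Finite := by
    intro A
    set d1 := dist UpperHalfPlane.I (P • ver 0 0) with hd1
    set d2 := dist UpperHalfPlane.I z0 with hd2
    refine (finite_displacement (2 * d1 + 2 * A + 2 * d2)).subset ?_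
    rintro h ⟨hh, hA⟩
    have hA0 : 0 ≤ A := (abs_nonneg _).trans hA
    have hd1' : 0 ≤ d1 := dist_nonneg
    have hd2' : 0 ≤ d2 := dist_nonneg
    obtain ⟨hG, hcom⟩ := (hmemSS h).1 hh
    obtain ⟨μ, hμ, hd⟩ := hdiag h hh
    refine ⟨hG, ?_, ?_⟩
    · have e1 := hact h.1 μ hμ 0 hd
      have e2 : dist (P • ver 0 0) (h.1 • (P • ver 0 0)) ≤ 2 * A := by
        rw [e1, dist_smul, dist_ver, zero_add, zero_sub, abs_neg, abs_mul, abs_of_pos
          (show (0:ℝ) < 2 by norm_num), ← hφ h μ hμ hd]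
        linarith
      have e3 : dist (h.1 • (P • ver 0 0)) (h.1 • UpperHalfPlane.I) = d1 := by
        rw [dist_smul, dist_comm]
      calc dist UpperHalfPlane.I (h.1 • UpperHalfPlane.I)
          ≤ dist UpperHalfPlane.I (P • ver 0 0) + dist (P • ver 0 0) (h.1 • (P • ver 0 0)) +
            dist (h.1 • (P • ver 0 0)) (h.1 • UpperHalfPlane.I) := dist_triangle4 _ _ _ _
        _ ≤ d1 + 2 * A + d1 := by rw [e3]; linarith
        _ ≤ _ := by linarith
    · have e1 : h.2 * g2 = g2 * h.2 := congrArg Prod.snd hcom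
      have e2 : h.2 • z0 = z0 := by
        apply fixed_unique g2 g2_c _ _ _ hz0
        rw [← mul_smul, ← e1, mul_smul, hz0]
      have e3 : dist z0 (h.2 • UpperHalfPlane.I) = d2 := by
        rw [← e2, dist_smul, dist_comm]
      calc dist UpperHalfPlane.I (h.2 • UpperHalfPlane.I)
          ≤ dist UpperHalfPlane.I z0 + dist z0 (h.2 • UpperHalfPlane.I) := dist_triangle _ _ _
        _ ≤ _ := by rw [e3]; linarith
  -- the minimal positive value
  have hfin : {h | h ∈ SS ∧ 0 < φ h ∧ φ h ≤ φ gg}.Finite := by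
    refine (hdisc (φ gg)).subset ?_
    rintro h ⟨h1, h2, h3⟩
    exact ⟨h1, by rw [abs_of_pos h2]; exact h3⟩
  obtain ⟨h0, ⟨h0S, h0pos, h0le⟩, h0min⟩ := Set.exists_min_image _ φ hfin
    ⟨gg, hggSS, by rw [hφgg]; exact hlog, le_rfl⟩
  have hφpow : ∀ n : ℕ, φ (h0 ^ n) = n * φ h0 := by
    intro n
    induction n with
    | zero => rw [pow_zero, hφone]; simp
    | succ n ih =>
      rw [pow_succ, hφmul _ (SS.pow_mem h0S n) _ h0S, ih]; push_cast; ring
  have hφinv : ∀ a ∈ SS, φ a⁻¹ = -φ a := by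
    intro a ha
    have h1 := hφmul a ha a⁻¹ (SS.inv_mem ha)
    rw [mul_inv_cancel, hφone] at h1
    linarith
  have hφzpow : ∀ k : ℤ, φ (h0 ^ k) = k * φ h0 := by
    intro k
    obtain ⟨n, rfl | rfl⟩ := k.eq_nat_or_neg
    · rw [zpow_natCast, hφpow]; simp
    · rw [zpow_neg, zpow_natCast, hφinv _ (SS.pow_mem h0S n), hφpow]; push_cast; ring
  refine ⟨?_, ?_, ?_⟩
  · intro h
    rw [h, hφone] at hφgg
    linarith
  · refine ⟨fun t => WithLp.toLp 2 (P • ver 0 t, z0), ⟨?_, 2 * Real.log |l|, by positivity, ?_⟩,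
      fun s y => WithLp.toLp 2 (P • ver 0 s, ver z0.re (Real.log z0.im + y)), ?_, ?_⟩
    · intro s t
      rw [dist_act]
      show Real.sqrt (dist (P • ver 0 s) (P • ver 0 t) ^ 2 + dist z0 z0 ^ 2) = _
      rw [dist_smul, dist_ver, dist_self]
      norm_num
      exact Real.sqrt_sq_eq_abs _
    · intro t
      show WithLp.toLp 2 (g1 • (P • ver 0 t), g2 • z0) = _
      rw [hact g1 l hl0 t hP, hz0]
    · intro s
      have : ver z0.re (Real.log z0.im + 0) = z0 := by
        apply UpperHalfPlane.ext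
        apply Complex.ext
        · rfl
        · show Real.exp (Real.log z0.im + 0) = z0.im
          rw [add_zero, Real.exp_log z0.im_pos]
      simp only [this]
    · intro s s' y y' _ _
      rw [dist_act]
      show Real.sqrt (dist (P • ver 0 s) (P • ver 0 s') ^ 2 +
        dist (ver z0.re (Real.log z0.im + y)) (ver z0.re (Real.log z0.im + y')) ^ 2) = _
      rw [dist_smul, dist_ver, dist_ver, sq_abs, sq_abs]
      congr 2
      ring
  · refine ⟨h0, ?_, ?_⟩
    · rw [hSS]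
      ext h
      constructor
      · intro hh
        set k := ⌊φ h / φ h0⌋ with hk
        refine ⟨k, ?_⟩
        have hh' : h * (h0 ^ k)⁻¹ ∈ SS := SS.mul_mem hh (SS.inv_mem (SS.zpow_mem h0S k))
        have hval : φ (h * (h0 ^ k)⁻¹) = φ h - k * φ h0 := by
          rw [hφmul _ hh _ (SS.inv_mem (SS.zpow_mem h0S k)), hφinv _ (SS.zpow_mem h0S k), hφzpow]
          ring
        have hlow : 0 ≤ φ (h * (h0 ^ k)⁻¹) := by
          rw [hval]
          have := Int.floor_le (φ h / φ h0)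
          rw [le_div_iff₀ h0pos] at this
          linarith
        have hup : φ (h * (h0 ^ k)⁻¹) < φ h0 := by
          rw [hval]
          have := Int.lt_floor_add_one (φ h / φ h0)
          rw [div_lt_iff₀ h0pos] at this
          linarith
        rcases hlow.eq_or_lt with h1 | h1
        · have := hinj _ hh' h1.symm
          exact mul_inv_eq_one.1 this
        · exfalso
          have := h0min _ ⟨hh', h1, hup.le.trans h0le⟩
          exact absurd this (not_le.2 hup)
      · rintro ⟨k, rfl⟩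
        exact SS.zpow_mem h0S k
    · intro k hk
      have h1 := hφzpow k
      rw [hk, hφone] at h1
      have h2 := (mul_eq_zero.1 h1.symm).resolve_right h0pos.ne'
      exact_mod_cast h2

/-- There is a group acting freely, properly discontinuously and cocompactly by isometries on the
product of two hyperbolic planes, and a nontrivial element of it which is not a rank-one isometry,
but whose stable centraliser is infinite cyclic. -/
theorem result : ∃ Γ : Subgroup (SL2 × SL2), IsDeckGroup Γ ∧ ∃ g ∈ Γ, g ≠ 1 ∧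
    (∃ L, IsAxis g L) ∧ ¬ IsRankOne g ∧ IsInfiniteCyclic (stableCentralizer Γ g) := by
  obtain ⟨h1, ⟨L, hL1, hL2⟩, h3⟩ := gg_properties
  exact ⟨Gam, gam_deck, gg, gg_mem, h1, ⟨L, hL1⟩, fun h => h L hL1 hL2, h3⟩

end Pool.Agent.Results.MP_adbdc7_gt.RankOne
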